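import Pool.Agent.TH949.UL.GLn

/-! The uniform Landau lemma with arbitrary coefficients outside a finite set `S` of places and with local roots at
`S`, some of which are removed. -/

set_option autoImplicit false

namespace Pool.Agent.Y82.GL

open NumberField IsDedekindDomain
open Pool.Agent.W189.TP (DS norm_term)
open Pool.Agent.TH861.GL3 (PL qq two_le_qq qq_pos one_lt_qq)
open Pool.Agent.TH949.LT
open Pool.Agent.TH949.UL

universe u

section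

variable {K : Type u} [Field K] [NumberField K] {S : Finset (HeightOneSpectrum (𝓞 K))} {m : ℕ}

open Classical in
/-- all coefficients -/
noncomputable def eall (e : PL S → ℕ → ℝ) (β : HeightOneSpectrum (𝓞 K) → Fin m → ℂ) (x : PV K) : ℝ :=
  if h : x.1 ∈ S then (∑ i, β x.1 i ^ (x.2 + 1)).re / ((x.2 : ℝ) + 1)
  else e ⟨x.1, h⟩ (x.2 + 1) / ((x.2 : ℝ) + 1)

variable {e : PL S → ℕ → ℝ} {β : HeightOneSpectrum (𝓞 K) → Fin m → ℂ} {B : ℝ}

theorem eall_S {v : HeightOneSpectrum (𝓞 K)} (hv : v ∈ S) (k : ℕ) :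
    eall e β (v, k) = (∑ i, β v i ^ (k + 1)).re / ((k : ℝ) + 1) := dif_pos hv

theorem eall_P {v : HeightOneSpectrum (𝓞 K)} (hv : v ∉ S) (k : ℕ) :
    eall e β (v, k) = e ⟨v, hv⟩ (k + 1) / ((k : ℝ) + 1) := dif_neg hv

theorem eall_le (hB : 0 ≤ B) (he : ∀ v k, |e v k| ≤ B * (qq v.1 : ℝ) ^ k)
    (hβ : ∀ v ∈ S, ∀ i, ‖β v i‖ < (qq v : ℝ)) (x : PV K) :
    |eall e β x| ≤ (B + m) * Real.exp (LV x) := by
  have hq := one_lt_qq x.1
  have hk : (1 : ℝ) ≤ (x.2 : ℝ) + 1 := by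
    have : (0 : ℝ) ≤ x.2 := Nat.cast_nonneg _
    linarith
  have hE := Real.exp_pos (LV x)
  unfold eall
  split_ifs with hx
  · have h1 : |(∑ i, β x.1 i ^ (x.2 + 1)).re| ≤ (B + m) * Real.exp (LV x) := by
      rw [exp_LV]
      refine (Complex.abs_re_le_norm _).trans ((norm_sum_le _ _).trans ?_)
      calc _ ≤ ∑ _i : Fin m, (qq x.1 : ℝ) ^ (x.2 + 1) := by
            refine Finset.sum_le_sum fun i _ => ?_
            rw [norm_pow]
            exact pow_le_pow_left₀ (norm_nonneg _) (hβ x.1 hx i).le _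
        _ = m * (qq x.1 : ℝ) ^ (x.2 + 1) := by simp
        _ ≤ _ := mul_le_mul_of_nonneg_right (by linarith) (by positivity)
    rw [abs_div, abs_of_pos (by linarith : (0 : ℝ) < (x.2 : ℝ) + 1)]
    exact (div_le_self (abs_nonneg _) hk).trans h1
  · rw [abs_div, abs_of_pos (by linarith : (0 : ℝ) < (x.2 : ℝ) + 1)]
    refine (div_le_self (abs_nonneg _) hk).trans ((he _ _).trans ?_)
    rw [exp_LV]
    have : (0 : ℝ) ≤ m := Nat.cast_nonneg _
    exact mul_le_mul_of_nonneg_right (by linarith) (by positivity)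

omit [NumberField K] in
theorem summ_S {f : PV K → ℂ} (hf : Summable f) : Summable fun x : S × ℕ => f (x.1.1, x.2) := by
  have h1 : Summable (f ∘ jSum S) := hf.comp_injective jSum_bij.1
  exact h1.comp_injective Sum.inr_injective

/-- the logarithm outside `S` -/
noncomputable def logE (e : PL S → ℕ → ℝ) (s : ℂ) : ℂ :=
  ∑' x : PL S × ℕ, ((e x.1 (x.2 + 1) / ((x.2 : ℝ) + 1) : ℝ) : ℂ) * (((qq x.1.1 : ℕ) : ℂ) ^ (-s)) ^ (x.2 + 1)

/-- the total logarithm -/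
theorem exp_eall (hB : 0 ≤ B) (he : ∀ v k, |e v k| ≤ B * (qq v.1 : ℝ) ^ k)
    (hβ : ∀ v ∈ S, ∀ i, ‖β v i‖ < (qq v : ℝ))
    (hr : ∀ v ∈ S, ∀ k : ℕ, ∃ c : ℝ, ∑ i, β v i ^ (k + 1) = (c : ℂ)) {s : ℂ} (hs : 5 / 2 ≤ s.re) :
    Complex.exp (DS (eall e β) LV s) * (∏ v ∈ S, ∏ i, (1 - β v i * ((qq v : ℕ) : ℂ) ^ (-s))) =
      Complex.exp (logE e s) := by
  have hsum : Summable fun x => (eall e β x : ℂ) * Complex.exp (-(s * LV x)) := by
    refine Summable.of_norm ((d_sum (eall_le hB he hβ) hs).1.congr fun x => ?_)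
    rw [norm_term]
  have hS : Complex.exp (∑' x : S × ℕ, (eall e β (x.1.1, x.2) : ℂ) * Complex.exp (-(s * LV (x.1.1, x.2)))) =
      (∏ v ∈ S, ∏ i, (1 - β v i * ((qq v : ℕ) : ℂ) ^ (-s)))⁻¹ := by
    refine exp_S' (e := fun x : S × ℕ => (eall e β (x.1.1, x.2) : ℂ) *
      Complex.exp (-(s * LV (x.1.1, x.2)))) hβ hs (fun v k => ?_) ?_
    · obtain ⟨c, hc⟩ := hr v.1 v.2 k
      simp only
      rw [eall_S v.2, cexp_LV, hc, Complex.ofReal_re]
      push_cast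
      rfl
    · exact summ_S hsum
  have h1 : DS (eall e β) LV s = logE e s +
      ∑' x : S × ℕ, (eall e β (x.1.1, x.2) : ℂ) * Complex.exp (-(s * LV (x.1.1, x.2))) := by
    unfold DS
    rw [tsum_split (S := S) hsum]
    congr 1
    unfold logE
    refine tsum_congr fun x => ?_
    rw [cexp_LV, eall_P x.1.2]
  rw [h1, Complex.exp_add, hS, mul_assoc, inv_mul_cancel₀, mul_one]
  intro h0
  rw [h0, inv_zero] at hS
  exact Complex.exp_ne_zero _ hS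

end

open scoped Classical in
/-- **The uniform Landau lemma with a set `S`.** -/
theorem gen (K : Type u) [Field K] [NumberField K] (m N : ℕ) {D : ℂ → ℂ} {CD : ℝ} (hD : Den D CD)
    {B ε : ℝ} (hB : 0 ≤ B) (hε : 0 < ε) :
    ∃ A : ℝ, 0 < A ∧ ∀ (S : Finset (HeightOneSpectrum (𝓞 K))) (e : PL S → ℕ → ℝ)
      (β : HeightOneSpectrum (𝓞 K) → Fin m → ℂ) (T : Finset (HeightOneSpectrum (𝓞 K) × Fin m))
      (κ : Fin N → ℂ) (Q : ℝ) (G : ℂ → ℂ),
      (∀ v k, |e v k| ≤ B * (qq v.1 : ℝ) ^ k) → (∀ v ∈ S, ∀ i, ‖β v i‖ < (qq v : ℝ)) →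
      (∀ x ∈ T, x.1 ∈ S ∧ ‖β x.1 x.2‖ = 1) →
      (∀ v ∈ S, ∀ k : ℕ, ∃ c : ℝ, 0 ≤ c ∧ ∑ i, (if (v, i) ∈ T then 0 else β v i ^ (k + 1)) = (c : ℂ)) →
      LData N κ Q G → (∃ j, κ j = 0) →
      (∀ s : ℂ, 5 / 2 ≤ s.re → G s * ∏ v ∈ S, ∏ i, (1 - β v i * ((qq v : ℕ) : ℂ) ^ (-s)) =
        D s * Complex.exp (logE e s)) →
      ∃ (v : PL S) (k : ℕ), 1 ≤ k ∧
        (qq v.1 : ℝ) ^ k ≤ A * (Q ^ 2 * PK κ * ∏ x ∈ T, (qq x.1 : ℝ)) ^ (1 + ε) ∧ e v k < 0 := by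
  obtain ⟨A, hA0, hA⟩ := euler.{u} K N m hD (B := B + m) (by positivity) hε
  refine ⟨A, hA0, fun S e β T κ Q G he hβ hT hnn hG hκ hE => ?_⟩
  set β' : HeightOneSpectrum (𝓞 K) → Fin m → ℂ := fun v i => if (v, i) ∈ T then 0 else β v i with hβ'
  have hpow : ∀ v k, ∑ i, β' v i ^ (k + 1) = ∑ i, (if (v, i) ∈ T then 0 else β v i ^ (k + 1)) := by
    intro v k
    refine Finset.sum_congr rfl fun i _ => ?_
    rw [hβ']
    simp only
    split_ifs
    · exact zero_pow (Nat.succ_ne_zero k)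
    · rfl
  have hb1 : ∀ v ∈ S, ∀ i, ‖β' v i‖ < (qq v : ℝ) := by
    intro v hv i
    rw [hβ']
    simp only
    split_ifs
    · rw [norm_zero]
      exact qq_pos v
    · exact hβ v hv i
  have hb2 : ∀ v ∈ S, ∀ k : ℕ, ∃ c : ℝ, 0 ≤ c ∧ ∑ i, β' v i ^ (k + 1) = (c : ℂ) := by
    intro v hv k
    obtain ⟨c, hc, hc2⟩ := hnn v hv k
    refine ⟨c, hc, ?_⟩
    rw [hpow]
    simp only [← hc2]
  obtain ⟨x, hx, hxl⟩ := hA (eall e β') κ Q G T (fun x => β x.1 x.2) (fun x hx => (hT x hx).2) hG hκ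
    (eall_le hB he hb1) (fun s hs => by
      have h1 := hE s hs
      have h2 := exp_eall hB he hb1 (fun v hv k => by
        obtain ⟨c, _, hc⟩ := hb2 v hv k
        exact ⟨c, hc⟩) hs
      have h3 : ∏ v ∈ S, ∏ i, (1 - β v i * ((qq v : ℕ) : ℂ) ^ (-s)) =
          (∏ v ∈ S, ∏ i, (1 - β' v i * ((qq v : ℕ) : ℂ) ^ (-s))) *
            ∏ x ∈ T, (1 - β x.1 x.2 * ((qq x.1 : ℕ) : ℂ) ^ (-s)) := by
        rw [← Finset.prod_product' S Finset.univ (fun v i => 1 - β v i * ((qq v : ℕ) : ℂ) ^ (-s)),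
          ← Finset.prod_product' S Finset.univ (fun v i => 1 - β' v i * ((qq v : ℕ) : ℂ) ^ (-s))]
        have hsub : T ⊆ S ×ˢ Finset.univ := fun x hx => Finset.mem_product.2 ⟨(hT x hx).1, Finset.mem_univ _⟩
        have h4 : ∏ x ∈ T, (1 - β x.1 x.2 * ((qq x.1 : ℕ) : ℂ) ^ (-s)) =
            ∏ x ∈ S ×ˢ Finset.univ, if x ∈ T then (1 - β x.1 x.2 * ((qq x.1 : ℕ) : ℂ) ^ (-s)) else 1 := by
          rw [Finset.prod_ite_mem, Finset.inter_eq_right.2 hsub]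
        rw [h4, ← Finset.prod_mul_distrib]
        refine Finset.prod_congr rfl fun x _ => ?_
        rw [hβ']
        simp only
        split_ifs <;> simp
      have hne : ∏ v ∈ S, ∏ i, (1 - β' v i * ((qq v : ℕ) : ℂ) ^ (-s)) ≠ 0 := by
        intro h0
        rw [h0, mul_zero] at h2
        exact Complex.exp_ne_zero _ h2.symm
      rw [h3, ← h2] at h1
      have h5 : (G s * ∏ x ∈ T, (1 - β x.1 x.2 * ((qq x.1 : ℕ) : ℂ) ^ (-s))) *
          (∏ v ∈ S, ∏ i, (1 - β' v i * ((qq v : ℕ) : ℂ) ^ (-s))) =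
          (D s * Complex.exp (DS (eall e β') LV s)) *
          (∏ v ∈ S, ∏ i, (1 - β' v i * ((qq v : ℕ) : ℂ) ^ (-s))) := by
        linear_combination h1
      exact mul_right_cancel₀ hne h5)
  obtain ⟨v, k⟩ := x
  have hk : (0 : ℝ) < (k : ℝ) + 1 := by positivity
  by_cases hxS : v ∈ S
  · exfalso
    rw [eall_S hxS] at hx
    obtain ⟨c, hc, hc2⟩ := hb2 v hxS k
    rw [hc2, Complex.ofReal_re] at hx
    have : 0 ≤ c / ((k : ℝ) + 1) := by positivity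
    linarith
  · rw [eall_P hxS, div_lt_iff₀ hk, zero_mul] at hx
    exact ⟨⟨v, hxS⟩, k + 1, by omega, hxl, hx⟩

end Pool.Agent.Y82.GL
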