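import Pool.Agent.Y725.UG.Prod
import Pool.Agent.TH949.UL.DQ

/-! Landau's lemma, uniformly, for nonnegative integral combinations of families of `L`-functions. -/

set_option autoImplicit false

namespace Pool.Agent.Y82.GL

open NumberField IsDedekindDomain
open Pool.Agent.W189.TP (DS norm_term)
open Pool.Agent.TH861.GL3 (qq two_le_qq qq_pos one_lt_qq)
open Pool.Agent.TH949.LT
open Pool.Agent.TH949.UL
open Pool.Agent.Y725.UG (ldata_mul pk_append ldata_one)

universe u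

/-- an `L`-function with the logarithm `∑ u x (N x)^{-s}`, with the analytic conductor `R` -/
structure Good {K : Type u} [Field K] [NumberField K] (N : ℕ) (B R : ℝ) (u : PV K → ℝ) (Z : Prop) : Prop where
  bd : ∀ x, |u x| ≤ B * Real.exp (LV x)
  ex : ∃ (κ : Fin N → ℂ) (Q : ℝ) (G : ℂ → ℂ), LData N κ Q G ∧
    (∀ s : ℂ, 5 / 2 ≤ s.re → G s = Complex.exp (DS u LV s)) ∧ R = Q ^ 2 * PK κ ∧ (Z → ∃ j, κ j = 0)

section

variable {K : Type u} [Field K] [NumberField K] {N N' : ℕ} {B B' R R' : ℝ} {u u' : PV K → ℝ} {Z Z' : Prop}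

theorem summ {B : ℝ} {u : PV K → ℝ} (h : ∀ x, |u x| ≤ B * Real.exp (LV x)) {s : ℂ} (hs : 5 / 2 ≤ s.re) :
    Summable fun x => (u x : ℂ) * Complex.exp (-(s * LV x)) := by
  refine Summable.of_norm ((d_sum h hs).1.congr fun x => ?_)
  rw [norm_term]

theorem Good.mul (h : Good (K := K) N B R u Z) (h' : Good (K := K) N' B' R' u' Z') :
    Good (K := K) (N + N') (B + B') (R * R') (fun x => u x + u' x) (Z ∨ Z') := by
  obtain ⟨κ, Q, G, hL, hG, hR, hZ⟩ := h.ex
  obtain ⟨κ', Q', G', hL', hG', hR', hZ'⟩ := h'.ex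
  refine ⟨fun x => ?_, Fin.append κ κ', Q * Q', fun s => G s * G' s, ldata_mul hL hL', fun s hs => ?_, ?_, ?_⟩
  · rw [add_mul]
    exact (abs_add_le _ _).trans (add_le_add (h.bd x) (h'.bd x))
  · beta_reduce
    rw [hG s hs, hG' s hs, ← Complex.exp_add]
    congr 1
    unfold DS
    rw [← (summ h.bd hs).tsum_add (summ h'.bd hs)]
    refine tsum_congr fun x => ?_
    push_cast
    ring
  · rw [pk_append, hR, hR']
    ring
  · rintro (hz | hz)
    · obtain ⟨j, hj⟩ := hZ hz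
      exact ⟨Fin.castAdd _ j, by rw [Fin.append_left]; exact hj⟩
    · obtain ⟨j, hj⟩ := hZ' hz
      exact ⟨Fin.natAdd _ j, by rw [Fin.append_right]; exact hj⟩

theorem good_one : Good (K := K) 0 0 1 (fun _ => 0) False := by
  refine ⟨fun x => by simp, fun i => i.elim0, 1, fun _ => 1, ldata_one, fun s _ => ?_, ?_, fun h => h.elim⟩
  · simp [DS]
  · simp [PK]

theorem Good.pow (h : Good (K := K) N B R u Z) : ∀ m : ℕ,
    Good (K := K) (m * N) (m * B) (R ^ m) (fun x => m * u x) (m ≠ 0 ∧ Z) := by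
  intro m
  induction m with
  | zero =>
    obtain ⟨h1, κ, Q, G, h2, h3, h4, _⟩ := good_one (K := K)
    rw [Nat.zero_mul]
    refine ⟨fun x => ?_, κ, Q, G, h2, fun s hs => ?_, ?_, fun h => absurd rfl h.1⟩
    · simpa using h1 x
    · simpa using h3 s hs
    · simpa using h4
  | succ m ih =>
    have h1 := ih.mul h
    rw [Nat.succ_mul]
    obtain ⟨h2, κ, Q, G, h3, h4, h5, h6⟩ := h1
    have e : (fun x => (m : ℝ) * u x + u x) = fun x => ((m + 1 : ℕ) : ℝ) * u x := by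
      funext x
      push_cast
      ring
    rw [e] at h4
    refine ⟨fun x => ?_, κ, Q, G, h3, h4, ?_, fun h => h6 (Or.inr h.2)⟩
    · have h7 := h2 x
      push_cast
      have e2 : ((m : ℝ) + 1) * u x = m * u x + u x := by ring
      have e3 : ((m : ℝ) + 1) * B = m * B + B := by ring
      rw [e2, e3]
      exact h7
    · rw [pow_succ]
      exact h5

theorem Good.congr (h : Good (K := K) N B R u Z) (hu : ∀ x, u x = u' x) : Good (K := K) N B R u' Z := by
  have : u = u' := funext hu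
  rw [← this]
  exact h

theorem Good.imp (h : Good (K := K) N B R u Z) (hz : Z' → Z) : Good (K := K) N B R u Z' := by
  obtain ⟨κ, Q, G, hL, hG, hR, hZ⟩ := h.ex
  exact ⟨h.bd, κ, Q, G, hL, hG, hR, fun z => hZ (hz z)⟩

end

/-- the uniform Landau lemma -/
theorem land (K : Type u) [Field K] [NumberField K] (N : ℕ) {B ε : ℝ} (hB : 0 ≤ B) (hε : 0 < ε) :
    ∃ A : ℝ, 0 < A ∧ ∀ (R : ℝ) (u : PV K → ℝ), Good N B R u True →
      ∃ x, u x < 0 ∧ (qq x.1 : ℝ) ^ (x.2 + 1) ≤ A * R ^ (1 + ε) := by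
  obtain ⟨A, hA0, hA⟩ := euler.{u} K N 0 den_one hB hε
  refine ⟨A, hA0, fun R u h => ?_⟩
  obtain ⟨κ, Q, G, hL, hG, hR, hZ⟩ := h.ex
  obtain ⟨x, hx, hx2⟩ := hA u κ Q G ∅ (fun _ => 1) (fun _ _ => by simp) hL (hZ trivial) h.bd (fun s hs => by
    rw [Finset.prod_empty, mul_one, one_mul]
    exact hG s hs)
  refine ⟨x, hx, ?_⟩
  rw [Finset.prod_empty, mul_one, ← hR] at hx2
  exact hx2

end Pool.Agent.Y82.GL
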